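import Pool.Agent.H92.SF.LUT

set_option autoImplicit false

namespace Pool.Agent.H95.SFU

open MvPolynomial
open Pool.Agent.H84.SM (dp cr dt)
open Pool.Agent.H3.SF Pool.Agent.H92.SF

theorem SS_eq (δ j0 m w jP n i : ℕ) (τ c : ℤ) (h : w * i ≤ n)
    (hc : τ + i * m * ((w : ℤ) - 2 * jP) + 2 * j0 * n + 1 = c) (hc0 : 0 ≤ c) :
    SS δ j0 m w jP 0 n i τ = δ * (m * nA (n - w * i) + c * nC (n - w * i)) := by
  unfold SS
  rw [if_neg (by omega)]
  obtain ⟨N, hN⟩ : ∃ N, N = n - w * i := ⟨_, rfl⟩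
  rw [← hN]
  have h1 : ∀ s b : ℕ, max 0 ((δ : ℤ) * (τ + m * ((s : ℤ) + b) + i * m * ((w : ℤ) - 2 * jP) +
      2 * j0 * n + 1) - i * ((0 : ℕ) : ℤ)) = δ * (c + m * ((s : ℤ) + b)) := by
    intro s b
    rw [← hc] at hc0
    rw [← hc, Nat.cast_zero, mul_zero, sub_zero, max_eq_right]
    · ring
    · have h2 : 0 ≤ (m : ℤ) * ((s : ℤ) + b) := by positivity
      have h3 : 0 ≤ τ + m * ((s : ℤ) + b) + i * m * ((w : ℤ) - 2 * jP) + 2 * j0 * n + 1 := by
        linarith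
      positivity
  have h2 : ∀ s : ℕ, ∑ b ∈ Finset.range (N - 3 * s + 1), (δ : ℤ) * (c + m * ((s : ℤ) + b)) =
      δ * (m * ((∑ b ∈ Finset.range (N - 3 * s + 1), (s + b) : ℕ) : ℤ) +
        c * ((N - 3 * s + 1 : ℕ) : ℤ)) := by
    intro s
    rw [← Finset.mul_sum, Finset.sum_add_distrib, Finset.sum_const, Finset.card_range,
      nsmul_eq_mul, ← Finset.mul_sum, Nat.cast_sum]
    simp only [Nat.cast_add]
    ring
  rw [Finset.sum_congr rfl fun s _ => Finset.sum_congr rfl fun b _ => h1 s b,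
    Finset.sum_congr rfl fun s _ => h2 s, ← Finset.mul_sum, Finset.sum_add_distrib,
    ← Finset.mul_sum, ← Finset.mul_sum]
  unfold nA nC
  rw [Nat.cast_sum, Nat.cast_sum]

/-- the three sums -/
theorem sums (a w : ℝ) (hw : 0 ≤ w) (R : ℕ) (hR : w * R ≤ a) :
    4 * w * ∑ r ∈ Finset.range R, (a - w * (r + 1)) ^ 3 ≤ a ^ 4 - (a - w * R) ^ 4 ∧
    3 * w * ∑ r ∈ Finset.range R, (a - w * (r + 1)) ^ 2 ≤ a ^ 3 - (a - w * R) ^ 3 ∧
    3 * w * ∑ r ∈ Finset.range R, (r : ℝ) * (a - w * (r + 1)) ^ 2 ≤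
      ∑ r ∈ Finset.range R, (a - w * (r + 1)) ^ 3 - R * (a - w * R) ^ 3 := by
  induction R with
  | zero => simp
  | succ R ih =>
    have hR' : w * R ≤ a := by
      refine le_trans (mul_le_mul_of_nonneg_left ?_ hw) hR
      push_cast
      linarith
    obtain ⟨i1, i2, i3⟩ := ih hR'
    obtain ⟨z, hz⟩ : ∃ z : ℝ, z = a - w * (R + 1) := ⟨_, rfl⟩
    have hz0 : 0 ≤ z := by
      rw [hz]
      push_cast at hR
      linarith
    have hz1 : a - w * R = z + w := by rw [hz]; ring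
    rw [Finset.sum_range_succ, Finset.sum_range_succ, Finset.sum_range_succ]
    push_cast
    rw [← hz]
    rw [hz1] at i1 i2 i3
    have k0 : (0 : ℝ) ≤ R := Nat.cast_nonneg R
    have k1 : 4 * w * z ^ 3 ≤ (z + w) ^ 4 - z ^ 4 := by
      have : 0 ≤ 6 * z ^ 2 * w ^ 2 + 4 * z * w ^ 3 + w ^ 4 := by positivity
      linarith
    have k2 : 3 * w * z ^ 2 ≤ (z + w) ^ 3 - z ^ 3 := by
      have : 0 ≤ 3 * z * w ^ 2 + w ^ 3 := by positivity
      linarith
    have k3 := mul_le_mul_of_nonneg_left k2 k0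
    refine ⟨by linarith, by linarith, ?_⟩
    linarith

theorem pf_NUF (hNSA : T_NSA) : T_NUF := by
  intro δ j0 hδ
  refine ⟨1000 * (2 * j0 + 1), fun m w jP hm hw hj hjw => ⟨2000, fun n hn => ?_⟩⟩
  -- real versions
  have hNSA1 : ∀ N : ℕ, 27 * (nA N : ℝ) ≤ 2 * ((N : ℝ) + 3) ^ 3 := by
    intro N
    exact_mod_cast (hNSA N).1
  have hNSA2 : ∀ N : ℕ, 6 * (nC N : ℝ) ≤ ((N : ℝ) + 3) ^ 2 := by
    intro N
    exact_mod_cast (hNSA N).2.1
  obtain ⟨a, ha⟩ : ∃ a : ℝ, a = (n : ℝ) + 3 := ⟨_, rfl⟩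
  obtain ⟨R, hR⟩ : ∃ R : ℕ, R = n / w := ⟨_, rfl⟩
  have hwR : w * R ≤ n := by rw [hR]; exact Nat.mul_div_le n w
  have hm3 : 1000 ≤ m := by omega
  have hδ0 : (0 : ℝ) ≤ δ := Nat.cast_nonneg δ
  have hm0 : (1000 : ℝ) ≤ m := by exact_mod_cast hm3
  have hw4 : (4 : ℝ) ≤ w := by exact_mod_cast hw
  have hn0 : (2000 : ℝ) ≤ n := by exact_mod_cast hn
  -- block 0
  have hb0 : SS δ j0 m w jP 0 n 0 0 = δ * (m * nA n + (2 * j0 * n + 1) * nC n) := by
    have := SS_eq δ j0 m w jP n 0 0 (2 * j0 * n + 1) (by omega) (by push_cast; ring) (by positivity)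
    rw [this]
    simp
  -- block r + 1
  have hbr : ∀ r ∈ Finset.range (n / w), ((m : ℤ) - 3) *
      SS δ j0 m w jP 0 n (r + 1) (-(2 * n * j0 + 1 + ((m : ℤ) - 3) * r)) =
      ((m : ℤ) - 3) * (δ * (m * nA (n - w * (r + 1)) +
        ((r + 1) * m * ((w : ℤ) - 2 * jP - 1) + m + 3 * r) * nC (n - w * (r + 1)))) := by
    intro r hr
    have hr' : r + 1 ≤ n / w := Finset.mem_range.1 hr
    have h1 : w * (r + 1) ≤ n := le_trans (Nat.mul_le_mul_left w hr') (Nat.mul_div_le n w)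
    have h2 : (0 : ℤ) ≤ (w : ℤ) - 2 * jP - 1 := by omega
    rw [SS_eq δ j0 m w jP n (r + 1) _ ((r + 1) * m * ((w : ℤ) - 2 * jP - 1) + m + 3 * r) h1
      (by push_cast; ring) (by positivity)]
  have hUU : UU δ j0 m w jP 0 n = (2 * n * j0 + 1) * (δ * (m * nA n + (2 * j0 * n + 1) * nC n)) +
      ∑ r ∈ Finset.range (n / w), ((m : ℤ) - 3) * (δ * (m * nA (n - w * (r + 1)) +
        ((r + 1) * m * ((w : ℤ) - 2 * jP - 1) + m + 3 * r) * nC (n - w * (r + 1)))) := by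
    unfold UU
    rw [hb0, Finset.sum_congr rfl hbr]
  have hUUr : ((UU δ j0 m w jP 0 n : ℤ) : ℝ) ≤ δ * ((2 * n * j0 + 1) * (m * (2 * a ^ 3 / 27) +
      (2 * j0 * n + 1) * (a ^ 2 / 6)) + ∑ r ∈ Finset.range R, (m : ℝ) *
        (m * (2 * (a - w * (r + 1)) ^ 3 / 27) +
        (r * (m * ((w : ℝ) - 3) + 3) + m * ((w : ℝ) - 2)) * ((a - w * (r + 1)) ^ 2 / 6))) := by
    rw [hUU]
    push_cast
    rw [mul_add (δ : ℝ) ((2 * (n : ℝ) * j0 + 1) * (m * (2 * a ^ 3 / 27) +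
      (2 * j0 * n + 1) * (a ^ 2 / 6))), Finset.mul_sum, ← hR]
    refine add_le_add ?_ (Finset.sum_le_sum fun r hr => ?_)
    · have h1 := hNSA1 n
      have h2 := hNSA2 n
      rw [← ha] at h1 h2
      have h3 : (m : ℝ) * nA n + (2 * j0 * n + 1) * nC n ≤ m * (2 * a ^ 3 / 27) +
          (2 * j0 * n + 1) * (a ^ 2 / 6) := by
        gcongr
        · linarith
        · linarith
      calc (2 * (n : ℝ) * j0 + 1) * (δ * (m * nA n + (2 * j0 * n + 1) * nC n))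
          = δ * ((2 * n * j0 + 1) * (m * nA n + (2 * j0 * n + 1) * nC n)) := by ring
        _ ≤ _ := by gcongr
    · have hr' : r + 1 ≤ R := Finset.mem_range.1 hr
      have h0 : w * (r + 1) ≤ n := le_trans (Nat.mul_le_mul_left w hr') hwR
      have hcast : ((n - w * (r + 1) : ℕ) : ℝ) + 3 = a - w * (r + 1) := by
        rw [Nat.cast_sub h0, ha]
        push_cast
        ring
      have h1 := hNSA1 (n - w * (r + 1))
      have h2 := hNSA2 (n - w * (r + 1))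
      rw [hcast] at h1 h2
      have hjr : (w : ℝ) - 2 * jP - 1 ≤ w - 3 := by
        have : (1 : ℝ) ≤ jP := by exact_mod_cast hj
        linarith
      have hjr0 : (0 : ℝ) ≤ (w : ℝ) - 2 * jP - 1 := by
        have h3 : (2 * jP + 1 : ℕ) ≤ w := by omega
        have h4 : ((2 * jP + 1 : ℕ) : ℝ) ≤ w := by exact_mod_cast h3
        push_cast at h4
        linarith
      have hr0 : (0 : ℝ) ≤ r := Nat.cast_nonneg r
      have h5 : ((r : ℝ) + 1) * m * ((w : ℝ) - 2 * jP - 1) + m + 3 * r ≤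
          r * (m * ((w : ℝ) - 3) + 3) + m * ((w : ℝ) - 2) := by
        have h6 : ((r : ℝ) + 1) * m * ((w : ℝ) - 2 * jP - 1) ≤ (r + 1) * m * (w - 3) := by gcongr
        linarith
      have h5' : 0 ≤ ((r : ℝ) + 1) * m * ((w : ℝ) - 2 * jP - 1) + m + 3 * r := by positivity
      have hA0 : (0 : ℝ) ≤ nA (n - w * (r + 1)) := Nat.cast_nonneg _
      have hC0 : (0 : ℝ) ≤ nC (n - w * (r + 1)) := Nat.cast_nonneg _
      have h7 : (m : ℝ) * nA (n - w * (r + 1)) +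
          (((r : ℝ) + 1) * m * ((w : ℝ) - 2 * jP - 1) + m + 3 * r) * nC (n - w * (r + 1)) ≤
          m * (2 * (a - w * (r + 1)) ^ 3 / 27) +
        (r * (m * ((w : ℝ) - 3) + 3) + m * ((w : ℝ) - 2)) * ((a - w * (r + 1)) ^ 2 / 6) := by
        refine add_le_add ?_ ?_
        · gcongr
          linarith
        · refine mul_le_mul h5 (by linarith) hC0 (le_trans h5' h5)
      have h8 : 0 ≤ (m : ℝ) * nA (n - w * (r + 1)) +
          (((r : ℝ) + 1) * m * ((w : ℝ) - 2 * jP - 1) + m + 3 * r) * nC (n - w * (r + 1)) := by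
        positivity
      calc ((m : ℝ) - 3) * (δ * (m * nA (n - w * (r + 1)) +
            (((r : ℝ) + 1) * m * ((w : ℝ) - 2 * jP - 1) + m + 3 * r) * nC (n - w * (r + 1))))
          = δ * (((m : ℝ) - 3) * (m * nA (n - w * (r + 1)) +
            (((r : ℝ) + 1) * m * ((w : ℝ) - 2 * jP - 1) + m + 3 * r) * nC (n - w * (r + 1)))) := by
              ring
        _ ≤ _ := by
          refine mul_le_mul_of_nonneg_left ?_ hδ0
          refine mul_le_mul (by linarith) h7 h8 (by linarith)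
  -- the sums
  have hRa : (w : ℝ) * R ≤ a := by
    have : ((w * R : ℕ) : ℝ) ≤ n := by exact_mod_cast hwR
    push_cast at this
    rw [ha]
    linarith
  obtain ⟨s3, s2, s1⟩ := sums a w (by linarith) R hRa
  have hy0 : 0 ≤ a - w * R := by linarith
  obtain ⟨S3, hS3⟩ : ∃ S : ℝ, S = ∑ r ∈ Finset.range R, (a - w * (r + 1)) ^ 3 := ⟨_, rfl⟩
  obtain ⟨S2, hS2⟩ : ∃ S : ℝ, S = ∑ r ∈ Finset.range R, (a - w * (r + 1)) ^ 2 := ⟨_, rfl⟩
  obtain ⟨S1, hS1⟩ : ∃ S : ℝ, S = ∑ r ∈ Finset.range R, (r : ℝ) * (a - w * (r + 1)) ^ 2 :=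
    ⟨_, rfl⟩
  have hsum : ∑ r ∈ Finset.range R, (m : ℝ) * (m * (2 * (a - w * (r + 1)) ^ 3 / 27) +
        (r * (m * ((w : ℝ) - 3) + 3) + m * ((w : ℝ) - 2)) * ((a - w * (r + 1)) ^ 2 / 6)) =
      m * (m * (2 * S3 / 27) + (m * ((w : ℝ) - 3) + 3) * (S1 / 6) +
        m * ((w : ℝ) - 2) * (S2 / 6)) := by
    rw [hS1, hS2, hS3, ← Finset.mul_sum]
    congr 1
    simp only [Finset.mul_sum, Finset.sum_div]
    rw [← Finset.sum_add_distrib, ← Finset.sum_add_distrib]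
    refine Finset.sum_congr rfl fun r _ => ?_
    ring
  rw [hsum] at hUUr
  rw [← hS3] at s3 s1
  rw [← hS2] at s2
  rw [← hS1] at s1
  have hw0 : (0 : ℝ) < w := by linarith
  have t3 : 4 * w * S3 ≤ a ^ 4 := by
    have : 0 ≤ (a - w * R) ^ 4 := by positivity
    linarith
  have t2 : 3 * w * S2 ≤ a ^ 3 := by
    have : 0 ≤ (a - w * R) ^ 3 := by positivity
    linarith
  have t1 : 12 * w ^ 2 * S1 ≤ a ^ 4 := by
    have h1 : 0 ≤ (R : ℝ) * (a - w * R) ^ 3 := by positivity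
    have h2 : 3 * w * S1 ≤ S3 := by linarith
    have h3 := mul_le_mul_of_nonneg_left h2 (by positivity : (0 : ℝ) ≤ 4 * w)
    linarith
  have ha0 : 0 ≤ a := by rw [ha]; linarith
  -- the bracket
  have hB1 : m * (2 * S3 / 27) + (m * ((w : ℝ) - 3) + 3) * (S1 / 6) +
        m * ((w : ℝ) - 2) * (S2 / 6) ≤ (19 / 3456 * m + 1 / 384) * a ^ 4 + m / 18 * a ^ 3 := by
    have u3 : S3 ≤ a ^ 4 / (4 * w) := by
      rw [le_div_iff₀ (by positivity)]
      linarith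
    have u2 : S2 ≤ a ^ 3 / (3 * w) := by
      rw [le_div_iff₀ (by positivity)]
      linarith
    have u1 : S1 ≤ a ^ 4 / (12 * w ^ 2) := by
      rw [le_div_iff₀ (by positivity)]
      linarith
    have v3 : (m : ℝ) * (2 * S3 / 27) ≤ m * (2 * (a ^ 4 / (4 * w)) / 27) := by gcongr
    have v1 : (m * ((w : ℝ) - 3) + 3) * (S1 / 6) ≤
        (m * ((w : ℝ) - 3) + 3) * (a ^ 4 / (12 * w ^ 2) / 6) := by
      have : 0 ≤ (m : ℝ) * ((w : ℝ) - 3) + 3 := by
        have : (0 : ℝ) ≤ (w : ℝ) - 3 := by linarith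
        positivity
      gcongr
    have v2 : (m : ℝ) * ((w : ℝ) - 2) * (S2 / 6) ≤ m * (w - 2) * (a ^ 3 / (3 * w) / 6) := by
      have : 0 ≤ (m : ℝ) * ((w : ℝ) - 2) := by
        have : (0 : ℝ) ≤ (w : ℝ) - 2 := by linarith
        positivity
      gcongr
    have x2 : (m : ℝ) * (w - 2) * (a ^ 3 / (3 * w) / 6) ≤ m / 18 * a ^ 3 := by
      have : (m : ℝ) * (w - 2) * (a ^ 3 / (3 * w) / 6) = (m / 18 * a ^ 3) * ((w - 2) / w) := by
        field_simp
        ring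
      rw [this]
      have h1 : ((w : ℝ) - 2) / w ≤ 1 := by
        rw [div_le_one hw0]
        linarith
      exact mul_le_of_le_one_right (by positivity) h1
    have x1 : (m : ℝ) * (2 * (a ^ 4 / (4 * w)) / 27) +
        (m * ((w : ℝ) - 3) + 3) * (a ^ 4 / (12 * w ^ 2) / 6) ≤
        (19 / 3456 * m + 1 / 384) * a ^ 4 := by
      have h1 : (m : ℝ) * (2 * (a ^ 4 / (4 * w)) / 27) +
        (m * ((w : ℝ) - 3) + 3) * (a ^ 4 / (12 * w ^ 2) / 6) =
          a ^ 4 * ((m * (4 * w + 3 * (w - 3)) + 9) / (216 * w ^ 2)) := by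
        field_simp
        ring
      rw [h1, mul_comm _ (a ^ 4)]
      refine mul_le_mul_of_nonneg_left ?_ (by positivity)
      rw [div_le_iff₀ (by positivity)]
      have h2 : 0 ≤ ((w : ℝ) - 4) * (19 * w - 36) := by
        refine mul_nonneg (by linarith) (by linarith)
      have h3 := mul_nonneg (by linarith : (0 : ℝ) ≤ m) h2
      have h4 : (16 : ℝ) ≤ w ^ 2 := by
        have h5 := mul_le_mul hw4 hw4 (by norm_num) (by linarith)
        linarith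
      linarith
    linarith
  -- the final estimate
  obtain ⟨J, hJ⟩ : ∃ J : ℝ, J = 2 * j0 + 1 := ⟨_, rfl⟩
  have hJ1 : 1 ≤ J := by
    rw [hJ]
    have : (0 : ℝ) ≤ j0 := Nat.cast_nonneg j0
    linarith
  have hmJ : 1000 * J ≤ m := by
    rw [hJ]
    exact_mod_cast hm
  have han : a ≤ 101 / 100 * n := by
    rw [ha]
    linarith
  have hnJ : 2 * (n : ℝ) * j0 + 1 ≤ n * J := by
    rw [hJ]
    linarith
  have hnJ' : 2 * (j0 : ℝ) * n + 1 ≤ n * J := by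
    rw [hJ]
    linarith
  have hn00 : (0 : ℝ) ≤ n := by linarith
  have hp2 : a ^ 2 ≤ (101 / 100 * n) ^ 2 := by gcongr
  have hp3 : a ^ 3 ≤ (101 / 100 * n) ^ 3 := by gcongr
  have hp4 : a ^ 4 ≤ (101 / 100 * n) ^ 4 := by gcongr
  have hC : (2 * (n : ℝ) * j0 + 1) * (m * (2 * a ^ 3 / 27) + (2 * j0 * n + 1) * (a ^ 2 / 6)) +
      m * (m * (2 * S3 / 27) + (m * ((w : ℝ) - 3) + 3) * (S1 / 6) +
        m * ((w : ℝ) - 2) * (S2 / 6)) ≤
      (n * J) * (m * (2 * (101 / 100 * n) ^ 3 / 27) + (n * J) * ((101 / 100 * n) ^ 2 / 6)) +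
      m * ((19 / 3456 * m + 1 / 384) * (101 / 100 * n) ^ 4 + m / 18 * (101 / 100 * n) ^ 3) := by
    refine add_le_add ?_ ?_
    · gcongr
    · refine mul_le_mul_of_nonneg_left (hB1.trans ?_) (by linarith)
      gcongr
  have hfin : 3240 * ((n * J) * (m * (2 * (101 / 100 * n) ^ 3 / 27) +
      (n * J) * ((101 / 100 * n) ^ 2 / 6)) +
      m * ((19 / 3456 * m + 1 / 384) * (101 / 100 * n) ^ 4 + m / 18 * (101 / 100 * n) ^ 3)) ≤
      19 * ((m : ℝ) ^ 2 * n ^ 4) := by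
    have e1 : 3240 * ((n * J) * (m * (2 * (101 / 100 * n) ^ 3 / 27) +
        (n * J) * ((101 / 100 * n) ^ 2 / 6)) +
        m * ((19 / 3456 * m + 1 / 384) * (101 / 100 * n) ^ 4 + m / 18 * (101 / 100 * n) ^ 3)) =
        (n : ℝ) ^ 4 * (3240 * 2 * (101 / 100) ^ 3 / 27 * (J * m) + 3240 * (101 / 100) ^ 2 / 6 * J ^ 2 +
          3240 * (19 / 3456) * (101 / 100) ^ 4 * m ^ 2 + 3240 / 384 * (101 / 100) ^ 4 * m) +
        180 * (101 / 100) ^ 3 * m ^ 2 * n ^ 3 := by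
      ring
    rw [e1]
    have e2 : 180 * (101 / 100) ^ 3 * (m : ℝ) ^ 2 * n ^ 3 ≤ 1 / 10 * m ^ 2 * n ^ 4 := by
      have h1 : 180 * (101 / 100) ^ 3 ≤ (1 : ℝ) / 10 * n := by
        norm_num
        linarith
      have h2 : 0 ≤ (m : ℝ) ^ 2 * n ^ 3 := by positivity
      have h3 := mul_le_mul_of_nonneg_right h1 h2
      linarith
    have e3 : 3240 * 2 * (101 / 100) ^ 3 / 27 * (J * m) + 3240 * (101 / 100) ^ 2 / 6 * J ^ 2 +
          3240 * (19 / 3456) * (101 / 100) ^ 4 * m ^ 2 + 3240 / 384 * (101 / 100) ^ 4 * m ≤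
          (189 / 10) * (m : ℝ) ^ 2 := by
      have h1 : 1000 * J * m ≤ (m : ℝ) * m := mul_le_mul_of_nonneg_right hmJ (by linarith)
      have h2 : J * (1000 * J) ≤ J * m := mul_le_mul_of_nonneg_left hmJ (by linarith)
      have h3 : 1 * (m : ℝ) ≤ J * m := mul_le_mul_of_nonneg_right hJ1 (by linarith)
      norm_num
      linarith
    have h4 : (0 : ℝ) ≤ (n : ℝ) ^ 4 := by positivity
    have e4 := mul_le_mul_of_nonneg_left e3 h4
    linarith
  have hreal : 162 * 20 * ((UU δ j0 m w jP 0 n : ℤ) : ℝ) ≤ 19 * (δ * m ^ 2 * n ^ 4) := by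
    have h1 := hUUr.trans (mul_le_mul_of_nonneg_left hC hδ0)
    have h2 := mul_le_mul_of_nonneg_left hfin hδ0
    linarith
  exact_mod_cast hreal

end Pool.Agent.H95.SFU
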